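import Pool.Agent.H550W.Lucas

/-!
# Prime indices `p` for which the Fibonacci and Lucas numbers have no small prime factor

Let `f(x) = log x (log₂ x)² log₄ x / (log₃ x)²`.  For every squarefree `d` there is `c > 0` such that for all large `X` and
all `h` prime to `d` there are at least `X ^ (9 / 10)` primes `p` in `(X, 3 X]`, `p ≡ h (mod d)`, such that every prime
factor of the Fibonacci number `U_p` and of the Lucas number `V_p = U_(p-1) + U_(p+1)` is larger than `c X f(X)`.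
-/

namespace Pool.Agent.Results.MP_5893d7_nt.RoughNumbers

/-- The record scale `f(x) = log x (log₂ x)² log₄ x / (log₃ x)²` (iterated natural logarithms). -/
noncomputable def f (x : ℝ) : ℝ :=
  Real.log x * (Real.log (Real.log x)) ^ 2 * Real.log (Real.log (Real.log (Real.log x))) /
    (Real.log (Real.log (Real.log x))) ^ 2

open Pool.Agent.H550W Pool.Agent.H447R2.ML in
theorem result (d : ℕ) (hd : Squarefree d) :
    ∃ c : ℝ, 0 < c ∧ ∃ X₀ : ℝ, ∀ X : ℝ, X₀ ≤ X → ∀ h : ℕ, h.Coprime d →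
    X ^ (9 / 10 : ℝ) ≤ ({p : ℕ | p.Prime ∧ X < p ∧ (p : ℝ) ≤ 3 * X ∧ p ≡ h [MOD d] ∧
      ∀ q : ℕ, q.Prime → (q ∣ Nat.fib p ∨ q ∣ Nat.fib (p - 1) + Nat.fib (p + 1)) →
        c * (X * f X) < q}.ncard : ℝ) := by
  obtain ⟨c, hc, X₀, -, hX⟩ := Pool.Agent.H550W.rough d hd
  refine ⟨c, hc, max X₀ 5, fun X hXX h hh => hX X ((le_max_left _ _).trans hXX) h hh _ ?_⟩
  intro p hp hXp _ hq0 q hq hdvd
  have hX5 : (5 : ℝ) ≤ X := (le_max_right _ _).trans hXX
  have hp5 : 5 < p := by
    have : (5 : ℝ) < p := lt_of_le_of_lt hX5 hXp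
    exact_mod_cast this
  obtain ⟨n, hn⟩ : ∃ n, p = n + 1 := ⟨p - 1, by omega⟩
  refine hq0 q hq ?_
  rcases hdvd with h1 | h1
  · rw [← U_fib] at h1
    have hne : q ≠ p := by
      rintro rfl
      refine not_dvd_self 1 hp (by omega) ?_ h1
      intro h2
      have := Nat.le_of_dvd (by norm_num) h2
      omega
    exact U_factor 1 hp hq hne h1
  · have h2 : q ∣ V 1 p := by
      rw [hn, V_fib]
      rw [hn, Nat.add_sub_cancel, add_comm (Nat.fib n)] at h1
      exact h1
    have hne : q ≠ p := by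
      rintro rfl
      have h3 := V_prime 1 hp
      have h4 : ((V 1 q : ℕ) : ZMod q) = 0 := (ZMod.natCast_eq_zero_iff _ _).mpr h2
      rw [h4, Nat.cast_one] at h3
      have : Fact q.Prime := ⟨hp⟩
      exact zero_ne_one h3
    exact V_factor 1 hp hq hne (fun h3 => hq.one_lt.ne' (Nat.dvd_one.mp h3)) h2

end Pool.Agent.Results.MP_5893d7_nt.RoughNumbers
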