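import Mathlib
import Pool.Agent.Helper53.GE.LucSize

/-!
# Large divisors of Fibonacci and Lucas numbers of prime index have no sparse multiples

Let `p` be a prime and `M` the Fibonacci number `F_p` or the Lucas number `V_p`.

* If `z` is a sum of `k` terms `c_i F_i` with `|c_i| ≤ H` and no multiple of `M`, then the greatest common divisor
  of `z` and `M` is small: its square is at most `((2 k H) ^ 2 φ) ^ (N ^ k) φ ^ (4 p / N)` for `M = F_p`, and it is
  at most `((2 k H) ^ 2 φ) ^ (N ^ k) φ ^ (2 p / N)` for `M = V_p`, for all `N` with `N ^ k < p`.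
* So for all `δ > 0` and `H` there is `c > 0` such that for all large primes `p` and every divisor `x ≥ φ ^ (δ p)`
  of `M`, all multiples of `x`, except those of `M`, are no sums of at most `c log p` terms `c_i F_i` with
  `|c_i| ≤ H`; in particular their Zeckendorf expansions have more than `c log p` terms.
* In particular this holds for the larger factor in every factorization `M = x y`.

Proof. In the ring of integers of `ℚ(√5)` modulo `x` the unit `ω = (1 + √5) / 2` satisfies `ω ^ (2 p) = -1` if `x`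
divides `F_p`; if `x` divides `V_p`, all elements of the ideal generated by `x` and `ω ^ p - 1` have norms
divisible by `x`, and `ω ^ p = 1` modulo this ideal.
By Dirichlet's theorem the exponents `± i` are near to the multiples of `2 p / q` (or `p / q`) for some
`q ≤ N ^ k`. The determinant of the multiplication by `∑ c_i (T ^ i - (- T) ^ (- i))` on the module generated by
a formal `q`-th root of `T ^ (2 p) = -1` is a polynomial of small degree and height in `T`. Its value at `ω` is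
in the ideal, has a small norm, and is not zero since `X ^ q + ω ^ (- 2 p)` (or `X ^ q - ω ^ (- p)`) is
irreducible over `ℚ(√5)`.
-/

set_option autoImplicit false

namespace Pool.Agent.Results.MP_5893d7_nt.SparseMultiples

/-- the Lucas numbers -/
def V : ℕ → ℤ
  | 0 => 2
  | 1 => 1
  | (n + 2) => V (n + 1) + V n

/-- `z` is a sum of at most `k` terms `c_i F_i` with different `i ≥ 0` and integers `c_i` with `|c_i| ≤ H` -/
def FewFib (k H : ℕ) (z : ℤ) : Prop :=
  ∃ (s : Finset ℕ) (c : ℕ → ℤ), s.card ≤ k ∧ (∀ i ∈ s, |c i| ≤ H) ∧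
    z = ∑ i ∈ s, c i * (Nat.fib i : ℤ)

open Pool.Agent.Helper53.GE

lemma LU_fib : ∀ n : ℕ, LU 1 n = (Nat.fib n : ℤ)
  | 0 => by simp [LU]
  | 1 => by simp [LU]
  | (n + 2) => by
    rw [Nat.fib_add_two]
    have h1 := LU_fib n
    have h2 := LU_fib (n + 1)
    simp only [LU]
    push_cast
    rw [h1, h2]
    ring

lemma LV_V : ∀ n : ℕ, LV 1 n = V n
  | 0 => rfl
  | 1 => rfl
  | (n + 2) => by
    have h1 := LV_V n
    have h2 := LV_V (n + 1)
    simp only [LV, V]
    rw [h1, h2]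
    ring

lemma few_iff {k H : ℕ} {z : ℤ} (h : FewFib k H z) : FewU 1 k H z := by
  obtain ⟨s, c, hs, hc, hz⟩ := h
  refine ⟨s, c, hs, hc, ?_⟩
  rw [hz]
  apply Finset.sum_congr rfl
  intro i _
  rw [LU_fib]

lemma al_phi : al 1 = Real.goldenRatio := by
  unfold al Real.goldenRatio
  norm_num

lemma V_parity : ∀ m : ℕ, Even (V (3 * m)) ∧ Odd (V (3 * m + 1)) ∧ Odd (V (3 * m + 2))
  | 0 => by
    refine ⟨⟨1, rfl⟩, ⟨0, rfl⟩, ⟨1, rfl⟩⟩
  | (m + 1) => by
    obtain ⟨h0, h1, h2⟩ := V_parity m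
    have e0 : V (3 * (m + 1)) = V (3 * m + 2) + V (3 * m + 1) := rfl
    have e1 : V (3 * (m + 1) + 1) = V (3 * (m + 1)) + V (3 * m + 2) := rfl
    have e2 : V (3 * (m + 1) + 2) = V (3 * (m + 1) + 1) + V (3 * (m + 1)) := rfl
    have f0 : Even (V (3 * (m + 1))) := by rw [e0]; exact h2.add_odd h1
    have f1 : Odd (V (3 * (m + 1) + 1)) := by rw [e1]; exact f0.add_odd h2
    exact ⟨f0, f1, by rw [e2]; exact f1.add_even f0⟩

lemma V_odd {p : ℕ} (hp : p.Prime) (h3 : p ≠ 3) : Odd (V p) := by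
  have h1 : ¬ 3 ∣ p := by
    intro h
    exact h3 ((Nat.prime_dvd_prime_iff_eq Nat.prime_three hp).1 h).symm
  have h2 := V_parity (p / 3)
  have h4 : p = 3 * (p / 3) + 1 ∨ p = 3 * (p / 3) + 2 := by omega
  rcases h4 with h | h
  · rw [h]; exact h2.2.1
  · rw [h]; exact h2.2.2

theorem asym (H : ℕ) {δ : ℝ} (hδ : 0 < δ) :
    ∃ c : ℝ, 0 < c ∧ ∃ p₀ : ℕ, ∀ p : ℕ, p₀ ≤ p → p.Prime → ∀ M : ℤ, M = Nat.fib p ∨ M = V p →
      ∀ (k : ℕ) (x z : ℤ), x ∣ M → Real.goldenRatio ^ (δ * p) ≤ |(x : ℝ)| → x ∣ z → ¬ M ∣ z →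
      FewFib k H z → c * Real.log p < k := by
  obtain ⟨c₁, hc₁, n₁, h₁⟩ := U_asym (Or.inl rfl : (1 : ℤ) = 1 ∨ (1 : ℤ) = 2) H hδ
  obtain ⟨c₂, hc₂, n₂, h₂⟩ := V_asym (Or.inl rfl : (1 : ℤ) = 1 ∨ (1 : ℤ) = 2) H hδ
  refine ⟨min c₁ c₂, lt_min hc₁ hc₂, max (max n₁ n₂) 4, ?_⟩
  intro p hp0 hp M hM k x z hx hxδ hxz hnot hz
  have hp4 : 4 ≤ p := le_trans (le_max_right _ _) hp0
  have hp1 : n₁ ≤ p := le_trans (le_trans (le_max_left _ _) (le_max_left _ _)) hp0
  have hp2 : n₂ ≤ p := le_trans (le_trans (le_max_right _ _) (le_max_left _ _)) hp0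
  have hlog : 0 ≤ Real.log p := Real.log_natCast_nonneg p
  rw [← al_phi] at hxδ
  rcases hM with rfl | rfl
  · have h := h₁ p hp1 hp k x z (by rw [LU_fib]; exact hx) hxδ hxz (by rw [LU_fib]; exact hnot)
      (few_iff hz)
    exact lt_of_le_of_lt (mul_le_mul_of_nonneg_right (min_le_left _ _) hlog) h
  · have h := h₂ p hp2 hp k x z (V p) (V_odd hp (by omega)) (by rw [LV_V]) hx hxδ hxz hnot
      (few_iff hz)
    exact lt_of_le_of_lt (mul_le_mul_of_nonneg_right (min_le_right _ _) hlog) h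

theorem result :
    -- common divisors of Fibonacci numbers with sparse integers
    (∀ (p k H N : ℕ) (z : ℤ), p.Prime → p ≠ 2 → 1 ≤ N → N ^ k < p → FewFib k H z →
      ¬ (Nat.fib p : ℤ) ∣ z → (Int.gcd z (Nat.fib p) : ℝ) ^ 2 ≤
        (((2 * k * H : ℕ) : ℝ) ^ 2 * Real.goldenRatio) ^ (N ^ k) *
          Real.goldenRatio ^ (4 * p / N)) ∧
    -- common divisors of Lucas numbers with sparse integers
    (∀ (p k H N : ℕ) (z : ℤ), p.Prime → p ≠ 2 → p ≠ 3 → 1 ≤ N → N ^ k < p → FewFib k H z →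
      ¬ V p ∣ z → (Int.gcd z (V p) : ℝ) ≤
        (((2 * k * H : ℕ) : ℝ) ^ 2 * Real.goldenRatio) ^ (N ^ k) *
          Real.goldenRatio ^ (2 * p / N)) ∧
    -- multiples of large divisors
    (∀ (H : ℕ) (δ : ℝ), 0 < δ → ∃ c : ℝ, 0 < c ∧ ∃ p₀ : ℕ, ∀ p : ℕ, p₀ ≤ p → p.Prime →
      ∀ M : ℤ, M = Nat.fib p ∨ M = V p → ∀ (k : ℕ) (x z : ℤ), x ∣ M →
      Real.goldenRatio ^ (δ * p) ≤ |(x : ℝ)| → x ∣ z → ¬ M ∣ z → FewFib k H z →
      c * Real.log p < k) ∧
    -- factorizations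
    (∀ H : ℕ, ∃ c : ℝ, 0 < c ∧ ∃ p₀ : ℕ, ∀ p : ℕ, p₀ ≤ p → p.Prime →
      ∀ M : ℤ, M = Nat.fib p ∨ M = V p → ∀ x y : ℤ, 1 < y → y ≤ x → x * y = M →
      ∀ (k : ℕ) (z : ℤ), x ∣ z → ¬ M ∣ z → FewFib k H z → c * Real.log p < k) := by
  refine ⟨?_, ?_, fun H δ hδ => asym H hδ, ?_⟩
  · intro p k H N z hp hp2 hN hNp hz hnot
    obtain ⟨s, c, hs, hc, hzs⟩ := few_iff hz
    have h := U_main (P := 1) (Or.inl rfl) (n := p) (k := k) (H := H) (N := N)
      (hp.odd_of_ne_two hp2) hN (cop_of_prime hp hNp) s c hs hc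
      (x := (Int.gcd z (Nat.fib p) : ℤ)) (by rw [LU_fib]; exact Int.gcd_dvd_right _ _)
      (by rw [← hzs]; exact Int.gcd_dvd_left _ _)
    rw [← hzs, LU_fib, al_phi] at h
    rcases h with h | h
    · exact absurd h hnot
    · have e1 : 2 * (2 * p) / N = 4 * p / N := by congr 1; ring
      rw [e1] at h
      rw [Int.cast_natCast] at h
      exact h
  · intro p k H N z hp hp2 hp3 hN hNp hz hnot
    obtain ⟨s, c, hs, hc, hzs⟩ := few_iff hz
    have h := V_main (P := 1) (Or.inl rfl) (n := p) (k := k) (H := H) (N := N)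
      (hp.odd_of_ne_two hp2) hN (cop_of_prime hp hNp) s c hs hc
      (x := (Int.gcd z (V p) : ℤ)) (V := V p) (V_odd hp hp3) (by rw [LV_V])
      (Int.gcd_dvd_right _ _) (by rw [← hzs]; exact Int.gcd_dvd_left _ _)
    rw [← hzs, al_phi] at h
    rcases h with h | h
    · exact absurd h hnot
    · rw [Int.cast_natCast, Nat.abs_cast] at h
      exact h
  · intro H
    obtain ⟨c, hc, p₀, h⟩ := asym H (by norm_num : (0 : ℝ) < 1 / 4)
    refine ⟨c, hc, max p₀ 6, ?_⟩
    intro p hp0 hp M hM x y hy hyx hxy k z hxz hnot hz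
    have hp6 : 6 ≤ p := le_trans (le_max_right _ _) hp0
    refine h p (le_trans (le_max_left _ _) hp0) hp M hM k x z ⟨y, hxy.symm⟩ ?_ hxz hnot hz
    rw [← al_phi]
    refine factor_large (P := 1) le_rfl hp6 (M := M) ?_ hy hyx hxy
    have hal := al_gt (P := 1) le_rfl
    have h0 : al 1 ^ (p - 3) ≤ al 1 ^ (p - 2) := pow_le_pow_right₀ hal.le (by omega)
    refine h0.trans ?_
    rcases hM with rfl | rfl
    · have h1 := LU_large (P := 1) le_rfl (p - 2)
      rw [show p - 2 + 2 = p by omega, LU_fib] at h1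
      exact h1
    · have h1 := LV_large (P := 1) le_rfl (n := p) (by omega)
      rw [LV_V] at h1
      exact h1

end Pool.Agent.Results.MP_5893d7_nt.SparseMultiples
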