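import Mathlib
import Pool.Agent.H176R.Law
import Pool.Agent.H447R2.ML.Spec

set_option autoImplicit false

/-!
# Primes in the real solutions of the Fibonacci recurrence: every set of indices of divergent weight

The real solutions of `T (n + 2) = T (n + 1) + T n` are the sequences
`T β B n = β φ ^ n + B ψ ^ n` with `φ = (1 + √5) / 2`, `ψ = (1 - √5) / 2`; the Fibonacci numbers are
the solution with `β = 1 / √5`, `B = -1 / √5`, the Lucas numbers the one with `β = B = 1`.  For a
prime `p` let `W β B p` be the `p`-rough part (the product, with multiplicity, of the prime factors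
larger than `p`) of `⌊T β B p⌋`.  For the Fibonacci and the Lucas numbers this is the number with the
index `p` itself, for all primes `p > 5`.  For a set `S` let `M S β B n` be the number of primes
`p ≤ n` in `S` with `W β B p` prime, and let `V S n` be the sum of `log p / p` over the primes
`p ≤ n` in `S`.

We prove that for every sequence of sets `S i` with `V (S i) n → ∞`, however sparse, every sequence
of reals `B j` and almost every `β > 0`, for all `i` and `j`,
`M (S i) β (B j) n = (e ^ γ / log φ) V + O(V ^ (1/2) (log V) ^ 2)`, `V = V (S i) n`, and that for almost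
every `β > 0` the number of primes `p ≤ n` with `W β (B j) p` prime is
`(e ^ γ / log φ) log n + O((log n) ^ (1/2) (log log n) ^ 2)`.

The starting file `GoldenBase` has `V L`, `L = log log n`, in place of `V` in the error term for a set,
which is larger than the main term for sparse sets, and the exponent `5/2` of `log log n` for all
primes.
-/

namespace Pool.Agent.Results.MP_5893d7_nt.SparseSetsLaw

open Filter Topology MeasureTheory Asymptotics

/-- The Lucas numbers. -/
def L : ℕ → ℕ
  | 0 => 2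
  | 1 => 1
  | (n + 2) => L (n + 1) + L n

/-- The golden ratio. -/
noncomputable def φ : ℝ := (1 + Real.sqrt 5) / 2

/-- The conjugate of the golden ratio. -/
noncomputable def ψ : ℝ := (1 - Real.sqrt 5) / 2

/-- The real solutions of the Fibonacci recurrence. -/
noncomputable def T (β B : ℝ) (n : ℕ) : ℝ := β * φ ^ n + B * ψ ^ n

/-- The product, with multiplicity, of the prime factors of `m` that are larger than `p`. -/
def roughPart (p m : ℕ) : ℕ := (m.primeFactorsList.filter (fun r => p < r)).prod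

/-- The `p`-rough part of `⌊T β B p⌋`. -/
noncomputable def W (β B : ℝ) (p : ℕ) : ℕ := roughPart p ⌊T β B p⌋₊

open Classical in
/-- The number of primes `p ≤ n` in the set `S` for which `W β B p` is prime. -/
noncomputable def M (S : Set ℕ) (β B : ℝ) (n : ℕ) : ℕ :=
  ((Finset.range (n + 1)).filter (fun p => p.Prime ∧ p ∈ S ∧ (W β B p).Prime)).card

open Classical in
/-- The sum of `log p / p` over the primes `p ≤ n` in the set `S`. -/
noncomputable def V (S : Set ℕ) (n : ℕ) : ℝ :=
  ∑ p ∈ (Finset.range (n + 1)).filter (fun p => p.Prime ∧ p ∈ S), Real.log p / p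

lemma V_eq (S : Set ℕ) (n : ℕ) : V S n = Pool.Agent.TH888.R.VS S n := by
  classical
  unfold V Pool.Agent.TH888.R.VS
  rw [Finset.sum_filter]
  refine Finset.sum_congr rfl fun p _ => ?_
  by_cases h : p.Prime ∧ p ∈ S
  · rw [if_pos h, if_pos ⟨h.2, h.1⟩]
    rfl
  · rw [if_neg h, if_neg fun h1 => h ⟨h1.2, h1.1⟩]

lemma sqrt5_sq : Real.sqrt 5 ^ 2 = 5 := Real.sq_sqrt (by norm_num)

lemma sqrt5_pos : 0 < Real.sqrt 5 := Real.sqrt_pos.2 (by norm_num)

lemma one_lt_phi : 1 < φ := by
  unfold φ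
  nlinarith [sqrt5_sq, sqrt5_pos]

lemma phi_add : φ + ψ = ((1 : ℤ) : ℝ) := by unfold φ ψ; push_cast; ring

lemma phi_mul : φ * ψ = -1 := by unfold φ ψ; nlinarith [sqrt5_sq]

lemma phi_sq : φ ^ 2 = φ + 1 := by unfold φ; nlinarith [sqrt5_sq]

lemma psi_sq : ψ ^ 2 = ψ + 1 := by unfold ψ; nlinarith [sqrt5_sq]

lemma T_rec (β B : ℝ) (n : ℕ) : T β B (n + 2) = T β B (n + 1) + T β B n := by
  unfold T
  rw [pow_add φ n 2, pow_add ψ n 2, phi_sq, psi_sq]
  ring

lemma T_zero (β B : ℝ) : T β B 0 = β + B := by unfold T; ring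

lemma T_one (β B : ℝ) : T β B 1 = β * φ + B * ψ := by unfold T; ring

/-- the Fibonacci numbers -/
lemma T_fib (n : ℕ) : T (1 / Real.sqrt 5) (-(1 / Real.sqrt 5)) n = (Nat.fib n : ℝ) := by
  induction n using Nat.twoStepInduction with
  | zero => rw [T_zero]; simp
  | one =>
    rw [T_one]
    have := sqrt5_pos.ne'
    unfold φ ψ
    rw [Nat.fib_one]
    field_simp
    push_cast
    ring
  | more n h1 h2 =>
    rw [T_rec, h1, h2, Nat.fib_add_two]
    push_cast
    ring

/-- the Lucas numbers -/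
lemma T_luc (n : ℕ) : T 1 1 n = (L n : ℝ) := by
  induction n using Nat.twoStepInduction with
  | zero => rw [T_zero]; norm_num [L]
  | one =>
    rw [T_one, one_mul, one_mul, phi_add]
    norm_num [L]
  | more n h1 h2 =>
    rw [T_rec, h1, h2]
    show _ = ((L (n + 1) + L n : ℕ) : ℝ)
    push_cast
    ring

lemma fib_eq (n : ℕ) : Pool.Agent.H447R2.ML.U 1 n = Nat.fib n := by
  induction n using Nat.twoStepInduction with
  | zero => rfl
  | one => rfl
  | more n h1 h2 =>
    rw [Pool.Agent.H447R2.ML.U_add_two, h1, h2, Nat.fib_add_two]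
    ring

lemma luc_eq (n : ℕ) : Pool.Agent.H447R2.ML.V 1 n = L n := by
  induction n using Nat.twoStepInduction with
  | zero => rfl
  | one => rfl
  | more n h1 h2 =>
    show _ = L (n + 1) + L n
    rw [Pool.Agent.H447R2.ML.V_add_two, h1, h2]
    ring

/-- The Fibonacci numbers. -/
lemma W_fib {p : ℕ} (hp : p.Prime) (h5 : 5 < p) :
    W (1 / Real.sqrt 5) (-(1 / Real.sqrt 5)) p = Nat.fib p := by
  have hd : ¬ p ∣ 1 ^ 2 + 4 := by
    intro h
    have := Nat.le_of_dvd (by norm_num) h
    omega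
  have h := Pool.Agent.H447R2.ML.rough_U 1 one_pos hp (by omega) hd
    (x := T (1 / Real.sqrt 5) (-(1 / Real.sqrt 5)) p) (by rw [T_fib, fib_eq])
  rw [fib_eq] at h
  exact h

/-- The Lucas numbers. -/
lemma W_luc {p : ℕ} (hp : p.Prime) (h5 : 5 < p) : W 1 1 p = L p := by
  have hd : ¬ p ∣ 1 := fun h => hp.one_lt.ne' (Nat.dvd_one.1 h)
  have h : Pool.Agent.H305R2.roughPart p ⌊T 1 1 p⌋₊ = L p := by
    rw [T_luc, Nat.floor_natCast]
    refine Pool.Agent.H447R2.ML.roughPart_eq_self ?_ fun q hq h => ?_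
    · rw [← luc_eq]
      exact (Pool.Agent.H447R2.ML.V_pos 1 p one_pos).ne'
    · rw [← luc_eq] at h
      exact Pool.Agent.H447R2.ML.lt_of_dvd_V 1 hp (by omega) hd hq
        (fun h' => hq.one_lt.ne' (Nat.dvd_one.1 h')) h
  exact h

lemma M_eq (S : Set ℕ) (β B : ℝ) (n : ℕ) :
    M S β B n = Pool.Agent.TH888.R.cS S (fun p => ⌊β * φ ^ p + B * ψ ^ p⌋₊) n := by
  classical
  unfold M Pool.Agent.TH888.R.cS
  rfl

/-- The Fibonacci and the Lucas numbers are two members of the family of the real solutions of the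
Fibonacci recurrence.  For every set of primes of divergent weight, all numbers `B` of a sequence and
almost every `β > 0` the law holds with a square root error term in terms of the weight alone, in
particular for the set of all primes. -/
theorem result :
    (∀ n : ℕ, T (1 / Real.sqrt 5) (-(1 / Real.sqrt 5)) n = Nat.fib n ∧ T 1 1 n = L n) ∧
    (∀ p : ℕ, p.Prime → 5 < p →
      W (1 / Real.sqrt 5) (-(1 / Real.sqrt 5)) p = Nat.fib p ∧ W 1 1 p = L p) ∧
    (∀ B : ℕ → ℝ,
      (∀ S : ℕ → Set ℕ, (∀ i, Tendsto (V (S i)) atTop atTop) → ∀ᵐ β : ℝ, 0 < β → ∀ i j : ℕ,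
        (fun n : ℕ => (M (S i) β (B j) n : ℝ) -
          Real.exp Real.eulerMascheroniConstant / Real.log φ * V (S i) n) =O[atTop]
        (fun n : ℕ => Real.sqrt (V (S i) n) * (Real.log (V (S i) n)) ^ 2)) ∧
      (∀ᵐ β : ℝ, 0 < β → ∀ j : ℕ,
        (fun n : ℕ => (M Set.univ β (B j) n : ℝ) -
          Real.exp Real.eulerMascheroniConstant / Real.log φ * Real.log n) =O[atTop]
        (fun n : ℕ => Real.sqrt (Real.log n) * (Real.log (Real.log n)) ^ 2))) := by
  have hV : ∀ S, V S = Pool.Agent.TH888.R.VS S := fun S => funext fun n => V_eq S n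
  refine ⟨fun n => ⟨T_fib n, T_luc n⟩, fun p hp h5 => ⟨W_fib hp h5, W_luc hp h5⟩,
    fun B => ⟨fun S hS => ?_, ?_⟩⟩
  · have h : ∀ i j : ℕ, ∀ᵐ β : ℝ, 0 < β → ∃ K : ℝ, 0 ≤ K ∧ ∀ n : ℕ,
        |(Pool.Agent.TH888.R.cS (S i) (fun p => ⌊β * φ ^ p + B j * ψ ^ p⌋₊) n : ℝ) -
        Real.exp Real.eulerMascheroniConstant / Real.log φ * Pool.Agent.TH888.R.VS (S i) n| ≤
          K * Pool.Agent.TH888.R.gr (Pool.Agent.TH888.R.VS (S i) n) := fun i j =>
      Pool.Agent.H176R.law_unit one_lt_phi phi_add phi_mul (B j) (S i) (by rw [← hV]; exact hS i)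
    filter_upwards [ae_all_iff.2 fun i => ae_all_iff.2 fun j => h i j] with β hβ h0 i j
    obtain ⟨K, hK, h1⟩ := hβ i j h0
    have h2 := hS i
    rw [hV] at h2 ⊢
    simp only [M_eq]
    exact Pool.Agent.H176M.bigO_set1 hK h2 h1
  · have h : ∀ j : ℕ, ∀ᵐ β : ℝ, 0 < β → ∃ K : ℝ, 0 ≤ K ∧ ∀ n : ℕ,
        |(Pool.Agent.TH888.R.cS Set.univ (fun p => ⌊β * φ ^ p + B j * ψ ^ p⌋₊) n : ℝ) -
        Real.exp Real.eulerMascheroniConstant / Real.log φ * Pool.Agent.TH888.R.VS Set.univ n| ≤
          K * Pool.Agent.TH888.R.gr (Pool.Agent.TH888.R.VS Set.univ n) := fun j =>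
      Pool.Agent.H176R.law_unit one_lt_phi phi_add phi_mul (B j) Set.univ
        Pool.Agent.TH888.R.VS_univ_tendsto
    filter_upwards [ae_all_iff.2 fun j => h j] with β hβ h0 j
    obtain ⟨K, hK, h1⟩ := hβ j h0
    simp only [M_eq]
    exact Pool.Agent.H176M.bigO_all1 hK h1

end Pool.Agent.Results.MP_5893d7_nt.SparseSetsLaw
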